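import Mathlib

/-!
# A ball covered by two convex bodies with small inradii (MP_583d70_an)

The space is `c₀ ⊕ c₀` with an equivalent norm: the coordinates are `u j`, `v k` and, for all `j, k`,
`u j + φ v k` (`j ≤ k`) and `φ u j + v k` (`k < j`), `φ` the golden ratio. The bodies are
`{u j ≤ (2 - φ) R for all j}` and `{v k ≤ (2 - φ) R for all k}`.
-/

set_option autoImplicit false

universe u

namespace H25K

open Filter Topology
open scoped ENNReal NNReal

/-- A convex body: a closed convex set with non-empty interior. -/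
def IsConvexBody {E : Type*} [NormedAddCommGroup E] [NormedSpace ℝ E] (C : Set E) : Prop :=
  Convex ℝ C ∧ IsClosed C ∧ (interior C).Nonempty

/-- The inradius of `C`: the supremum of the numbers `ρ ≥ 0` such that some ball of radius `ρ` lies in `C`. -/
noncomputable def inradius {E : Type*} [NormedAddCommGroup E] (C : Set E) : ℝ≥0∞ :=
  ⨆ (ρ : ℝ≥0) (_ : ∃ x : E, Metric.ball x (ρ : ℝ) ⊆ C), (ρ : ℝ≥0∞)

/-- Index set of the coordinates. -/
inductive Idx : Type u
  | l (j : ℕ) : Idx
  | r (k : ℕ) : Idx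
  | p (j k : ℕ) : Idx

instance : TopologicalSpace Idx.{u} := ⊥

instance : DiscreteTopology Idx.{u} := ⟨rfl⟩

/-- Bounded functions on the discrete index set, with the supremum norm. -/
abbrev F : Type u := BoundedContinuousFunction Idx.{u} ℝ

/-- The golden ratio. -/
noncomputable abbrev gr : ℝ := Real.goldenRatio

theorem gr_sq : gr * gr = gr + 1 := by
  have := Real.goldenRatio_sq
  nlinarith [this]

theorem gr_gt : 1 < gr := Real.one_lt_goldenRatio

theorem gr_lt : gr < 2 := Real.goldenRatio_lt_two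

/-- First sequence of coordinates. -/
def U (w : F.{u}) (j : ℕ) : ℝ := w (Idx.l j)

/-- Second sequence of coordinates. -/
def V (w : F.{u}) (k : ℕ) : ℝ := w (Idx.r k)

/-- The coordinate attached to the pair `(j, k)`. -/
noncomputable def pr (j k : ℕ) (a b : ℝ) : ℝ := if j ≤ k then a + gr * b else gr * a + b

/-- The closed subspace. -/
noncomputable def S : Submodule ℝ F.{u} where
  carrier := {w | (∀ j k, w (Idx.p j k) = pr j k (U w j) (V w k)) ∧
    Tendsto (fun j => U w j) atTop (𝓝 0) ∧ Tendsto (fun j => V w j) atTop (𝓝 0)}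
  add_mem' := by
    rintro a b ⟨ha, ha1, ha2⟩ ⟨hb, hb1, hb2⟩
    refine ⟨fun j k => ?_, ?_, ?_⟩
    · have h1 := ha j k
      have h2 := hb j k
      simp only [U, V, pr, BoundedContinuousFunction.add_apply] at *
      rw [h1, h2]
      split_ifs <;> ring
    · have := ha1.add hb1
      simpa [U] using this
    · have := ha2.add hb2
      simpa [V] using this
  zero_mem' := by
    refine ⟨fun j k => ?_, ?_, ?_⟩
    · simp [U, V, pr]
    · exact tendsto_const_nhds
    · exact tendsto_const_nhds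
  smul_mem' := by
    rintro c a ⟨ha, ha1, ha2⟩
    refine ⟨fun j k => ?_, ?_, ?_⟩
    · have h1 := ha j k
      simp only [U, V, pr, BoundedContinuousFunction.smul_apply, smul_eq_mul] at *
      rw [h1]
      split_ifs <;> ring
    · have := ha1.const_mul c
      simpa [U] using this
    · have := ha2.const_mul c
      simpa [V] using this

theorem mem_S (w : F.{u}) : w ∈ S.{u} ↔ (∀ j k, w (Idx.p j k) = pr j k (U w j) (V w k)) ∧
    Tendsto (fun j => U w j) atTop (𝓝 0) ∧ Tendsto (fun j => V w j) atTop (𝓝 0) := Iff.rfl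

theorem continuous_ev (i : Idx.{u}) : Continuous fun w : F.{u} => w i :=
  (BoundedContinuousFunction.lipschitz_eval_const i).continuous

theorem continuous_U (j : ℕ) : Continuous fun w : F.{u} => U w j := continuous_ev _

theorem continuous_V (j : ℕ) : Continuous fun w : F.{u} => V w j := continuous_ev _

theorem isClosed_tendsto (φ : ℕ → Idx.{u}) :
    IsClosed {w : F.{u} | Tendsto (fun n => w (φ n)) atTop (𝓝 0)} := by
  rw [← isSeqClosed_iff_isClosed]
  intro s w hs hw
  change Tendsto (fun n => w (φ n)) atTop (𝓝 0)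
  rw [Metric.tendsto_atTop]
  intro ε hε
  rw [Metric.tendsto_atTop] at hw
  obtain ⟨N, hN⟩ := hw (ε / 2) (by positivity)
  have h1 := hN N le_rfl
  have h2 : Tendsto (fun n => s N (φ n)) atTop (𝓝 0) := hs N
  rw [Metric.tendsto_atTop] at h2
  obtain ⟨M, hM⟩ := h2 (ε / 2) (by positivity)
  refine ⟨M, fun n hn => ?_⟩
  have h3 := hM n hn
  have h4 : dist (s N (φ n)) (w (φ n)) ≤ dist (s N) w :=
    BoundedContinuousFunction.dist_coe_le_dist (φ n)
  calc dist (w (φ n)) 0 ≤ dist (w (φ n)) (s N (φ n)) + dist (s N (φ n)) 0 := dist_triangle _ _ _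
    _ < ε / 2 + ε / 2 := by
        rw [dist_comm (w (φ n))]
        linarith
    _ = ε := by ring

theorem isClosed_S : IsClosed (S.{u} : Set F.{u}) := by
  have h : (S.{u} : Set F.{u}) =
      (⋂ (j : ℕ), ⋂ (k : ℕ), {w : F.{u} | w (Idx.p j k) = pr j k (U w j) (V w k)}) ∩
      ({w : F.{u} | Tendsto (fun n => w (Idx.l n)) atTop (𝓝 0)} ∩
       {w : F.{u} | Tendsto (fun n => w (Idx.r n)) atTop (𝓝 0)}) := by
    ext w
    simp only [SetLike.mem_coe, mem_S, Set.mem_inter_iff, Set.mem_iInter]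
    rfl
  rw [h]
  refine IsClosed.inter ?_ (IsClosed.inter (isClosed_tendsto _) (isClosed_tendsto _))
  refine isClosed_iInter fun j => isClosed_iInter fun k => ?_
  refine isClosed_eq (continuous_ev _) ?_
  unfold pr
  split_ifs
  · exact (continuous_U j).add (continuous_const.mul (continuous_V k))
  · exact (continuous_const.mul (continuous_U j)).add (continuous_V k)

noncomputable instance instComplete : CompleteSpace S.{u} := isClosed_S.completeSpace_coe

/-- Build an element from two sequences bounded by one. -/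
noncomputable def mk (a b : ℕ → ℝ) (ha : ∀ j, |a j| ≤ 1) (hb : ∀ j, |b j| ≤ 1) : F.{u} :=
  BoundedContinuousFunction.ofNormedAddCommGroupDiscrete
    (fun i : Idx.{u} => match i with
      | Idx.l j => a j
      | Idx.r k => b k
      | Idx.p j k => pr j k (a j) (b k)) 3 (by
    have hg1 := gr_gt
    have hg2 := gr_lt
    rintro (j | k | ⟨j, k⟩)
    · simpa using (ha j).trans (by norm_num)
    · simpa using (hb k).trans (by norm_num)
    · have h1 := abs_le.1 (ha j)
      have h2 := abs_le.1 (hb k)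
      simp only [pr, Real.norm_eq_abs]
      split_ifs <;> rw [abs_le] <;> constructor <;> nlinarith [h1.1, h1.2, h2.1, h2.2])

theorem mk_mem (a b : ℕ → ℝ) (ha : ∀ j, |a j| ≤ 1) (hb : ∀ j, |b j| ≤ 1)
    (ha0 : ∀ᶠ n in atTop, a n = 0) (hb0 : ∀ᶠ n in atTop, b n = 0) : mk.{u} a b ha hb ∈ S.{u} := by
  refine ⟨fun j k => rfl, ?_, ?_⟩
  · exact tendsto_const_nhds.congr' (ha0.mono fun n hn => hn.symm)
  · exact tendsto_const_nhds.congr' (hb0.mono fun n hn => hn.symm)

theorem norm_mk_le (a b : ℕ → ℝ) (ha : ∀ j, |a j| ≤ 1) (hb : ∀ j, |b j| ≤ 1)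
    (h : ∀ j k, |pr j k (a j) (b k)| ≤ 1) : ‖mk.{u} a b ha hb‖ ≤ 1 := by
  rw [BoundedContinuousFunction.norm_le zero_le_one]
  rintro (j | k | ⟨j, k⟩)
  · exact ha j
  · exact hb k
  · exact h j k

/-- The norming vector of the `m`-th coordinate of the first sequence. -/
theorem exists_x (m : ℕ) : ∃ x : S.{u}, ‖x‖ ≤ 1 ∧ U x.1 m = 1 := by
  have hg1 := gr_gt
  have hg2 := gr_lt
  have hg3 := gr_sq
  have hu : ∀ j, |(if j = m then (1 : ℝ) else 0)| ≤ 1 := by
    intro j; split_ifs <;> simp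
  have hv : ∀ k, |(if k < m then (1 - gr : ℝ) else 0)| ≤ 1 := by
    intro k; split_ifs
    · rw [abs_le]; constructor <;> linarith
    · norm_num
  refine ⟨⟨mk (fun j => if j = m then (1 : ℝ) else 0) (fun k => if k < m then (1 - gr : ℝ) else 0)
    hu hv, mk_mem _ _ _ _ ?_ ?_⟩, ?_, ?_⟩
  · filter_upwards [eventually_gt_atTop m] with n hn
    rw [if_neg (by omega)]
  · filter_upwards [eventually_gt_atTop m] with n hn
    rw [if_neg (by omega)]
  · refine norm_mk_le _ _ hu hv fun j k => ?_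
    unfold pr
    split_ifs <;> first | omega | (rw [abs_le]; constructor <;> nlinarith)
  · simp [U, mk]

/-- The norming vector of the `m`-th coordinate of the second sequence. -/
theorem exists_y (m : ℕ) : ∃ y : S.{u}, ‖y‖ ≤ 1 ∧ V y.1 m = 1 := by
  have hg1 := gr_gt
  have hg2 := gr_lt
  have hg3 := gr_sq
  have hv : ∀ j, |(if j = m then (1 : ℝ) else 0)| ≤ 1 := by
    intro j; split_ifs <;> simp
  have hu : ∀ k, |(if k ≤ m then (1 - gr : ℝ) else 0)| ≤ 1 := by
    intro k; split_ifs
    · rw [abs_le]; constructor <;> linarith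
    · norm_num
  refine ⟨⟨mk (fun k => if k ≤ m then (1 - gr : ℝ) else 0) (fun j => if j = m then (1 : ℝ) else 0)
    hu hv, mk_mem _ _ _ _ ?_ ?_⟩, ?_, ?_⟩
  · filter_upwards [eventually_gt_atTop m] with n hn
    rw [if_neg (by omega)]
  · filter_upwards [eventually_gt_atTop m] with n hn
    rw [if_neg (by omega)]
  · refine norm_mk_le _ _ hu hv fun j k => ?_
    unfold pr
    split_ifs <;> first | omega | (rw [abs_le]; constructor <;> nlinarith)
  · simp [V, mk]

/-- Every coordinate is bounded by the norm. -/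
theorem abs_ev_le (w : S.{u}) (i : Idx.{u}) : |w.1 i| ≤ ‖w‖ := by
  have := BoundedContinuousFunction.norm_coe_le_norm w.1 i
  simpa using this

/-- The two convex bodies. -/
def CU (c : S.{u}) (R : ℝ) : Set S.{u} := {w | ∀ j, U (w - c).1 j ≤ (2 - gr) * R}

def CV (c : S.{u}) (R : ℝ) : Set S.{u} := {w | ∀ j, V (w - c).1 j ≤ (2 - gr) * R}

/-- A set on which infinitely many norm-one functionals tending pointwise to zero are bounded by `b` contains no
ball of radius exceeding `b`. -/
theorem radius_le {E : Type u} [NormedAddCommGroup E] [NormedSpace ℝ E] (f : ℕ → E → ℝ) (c : E) {b : ℝ} (hb : 0 ≤ b)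
    (hf : ∀ m (x y : E) (τ : ℝ), f m (x + τ • y - c) = f m (x - c) + τ * f m y)
    (h0 : ∀ w : E, Tendsto (fun n => f n w) atTop (𝓝 0))
    (hx : ∀ m, ∃ x : E, ‖x‖ ≤ 1 ∧ f m x = 1) (D : Set E) (hD : ∀ w ∈ D, ∀ m, f m (w - c) ≤ b)
    (ρ : ℝ) (z : E) (hz : Metric.ball z ρ ⊆ D) : ρ ≤ b := by
  by_contra hcon
  push Not at hcon
  set τ : ℝ := (ρ + b) / 2 with hτ
  have hτ1 : b < τ := by rw [hτ]; linarith
  have hτ2 : τ < ρ := by rw [hτ]; linarith
  have h1 : ∀ m, f m (z - c) + τ ≤ b := by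
    intro m
    obtain ⟨x, hx1, hx2⟩ := hx m
    have hmem : z + τ • x ∈ Metric.ball z ρ := by
      rw [mem_ball_iff_norm, add_sub_cancel_left, norm_smul, Real.norm_eq_abs,
        abs_of_pos (by linarith)]
      nlinarith
    have h2 := hD _ (hz hmem) m
    rw [hf, hx2, mul_one] at h2
    exact h2
  have h5 : ¬ ((0 : ℝ) ≤ b - τ) := by intro h; linarith
  exact h5 (le_of_tendsto' (h0 (z - c)) fun m => by linarith [h1 m])

/-- The ball is covered by the two bodies. -/
theorem cover (c w : S.{u}) {R : ℝ} (_hR : 0 < R) (hw : ‖w - c‖ ≤ R) : w ∈ CU c R ∪ CV c R := by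
  by_contra hcon
  rw [Set.mem_union, not_or] at hcon
  obtain ⟨h1, h2⟩ := hcon
  have h1' : ¬ ∀ j, U (w - c).1 j ≤ (2 - gr) * R := h1
  have h2' : ¬ ∀ k, V (w - c).1 k ≤ (2 - gr) * R := h2
  push Not at h1' h2'
  obtain ⟨j, hj⟩ := h1'
  obtain ⟨k, hk⟩ := h2'
  have h3 := (abs_le.1 ((abs_ev_le (w - c) (Idx.p j k)).trans hw)).2
  rw [(w - c).2.1 j k] at h3
  have hg1 := gr_gt
  have hg2 := gr_lt
  have hg3 := gr_sq
  have h4 : (2 - gr) * R + gr * ((2 - gr) * R) = R := by
    have : (2 - gr) * R + gr * ((2 - gr) * R) = (2 + gr - gr * gr) * R := by ring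
    rw [this, hg3]; ring
  unfold pr at h3
  split_ifs at h3 <;> nlinarith

theorem convex_CU (c : S.{u}) (R : ℝ) : Convex ℝ (CU c R) := by
  intro x hx y hy a b ha hb hab
  change ∀ j, U (x - c).1 j ≤ (2 - gr) * R at hx
  change ∀ j, U (y - c).1 j ≤ (2 - gr) * R at hy
  change ∀ j, U (a • x + b • y - c).1 j ≤ (2 - gr) * R
  intro j
  have hU : U (a • x + b • y - c).1 j = a * U (x - c).1 j + b * U (y - c).1 j := by
    have e1 : U (a • x + b • y - c).1 j = a * U x.1 j + b * U y.1 j - U c.1 j := rfl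
    have e2 : U (x - c).1 j = U x.1 j - U c.1 j := rfl
    have e3 : U (y - c).1 j = U y.1 j - U c.1 j := rfl
    rw [e1, e2, e3]
    have : b = 1 - a := by linarith
    rw [this]; ring
  rw [hU]
  have h1 := mul_le_mul_of_nonneg_left (hx j) ha
  have h2 := mul_le_mul_of_nonneg_left (hy j) hb
  have h3 : a * ((2 - gr) * R) + b * ((2 - gr) * R) = (2 - gr) * R := by
    rw [← add_mul, hab, one_mul]
  linarith

theorem convex_CV (c : S.{u}) (R : ℝ) : Convex ℝ (CV c R) := by
  intro x hx y hy a b ha hb hab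
  change ∀ j, V (x - c).1 j ≤ (2 - gr) * R at hx
  change ∀ j, V (y - c).1 j ≤ (2 - gr) * R at hy
  change ∀ j, V (a • x + b • y - c).1 j ≤ (2 - gr) * R
  intro j
  have hV : V (a • x + b • y - c).1 j = a * V (x - c).1 j + b * V (y - c).1 j := by
    have e1 : V (a • x + b • y - c).1 j = a * V x.1 j + b * V y.1 j - V c.1 j := rfl
    have e2 : V (x - c).1 j = V x.1 j - V c.1 j := rfl
    have e3 : V (y - c).1 j = V y.1 j - V c.1 j := rfl
    rw [e1, e2, e3]
    have : b = 1 - a := by linarith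
    rw [this]; ring
  rw [hV]
  have h1 := mul_le_mul_of_nonneg_left (hx j) ha
  have h2 := mul_le_mul_of_nonneg_left (hy j) hb
  have h3 : a * ((2 - gr) * R) + b * ((2 - gr) * R) = (2 - gr) * R := by
    rw [← add_mul, hab, one_mul]
  linarith

theorem isClosed_CU (c : S.{u}) (R : ℝ) : IsClosed (CU c R) := by
  have h : CU c R = ⋂ j, {w : S.{u} | U w.1 j - U c.1 j ≤ (2 - gr) * R} := by
    ext w; simp only [Set.mem_iInter]; rfl
  rw [h]
  exact isClosed_iInter fun j => isClosed_le
    (((continuous_U j).comp continuous_subtype_val).sub continuous_const) continuous_const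

theorem isClosed_CV (c : S.{u}) (R : ℝ) : IsClosed (CV c R) := by
  have h : CV c R = ⋂ j, {w : S.{u} | V w.1 j - V c.1 j ≤ (2 - gr) * R} := by
    ext w; simp only [Set.mem_iInter]; rfl
  rw [h]
  exact isClosed_iInter fun j => isClosed_le
    (((continuous_V j).comp continuous_subtype_val).sub continuous_const) continuous_const

theorem interior_CU (c : S.{u}) {R : ℝ} (hR : 0 < R) : (interior (CU c R)).Nonempty := by
  have hg2 := gr_lt
  have hp : 0 < (2 - gr) * R := mul_pos (by linarith) hR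
  refine ⟨c, ?_⟩
  rw [mem_interior_iff_mem_nhds, Metric.mem_nhds_iff]
  refine ⟨(2 - gr) * R, hp, fun w hw j => ?_⟩
  have h : ‖w - c‖ < (2 - gr) * R := (dist_eq_norm w c).symm.trans_lt (Metric.mem_ball.1 hw)
  exact (le_abs_self _).trans ((abs_ev_le (w - c) _).trans h.le)

theorem interior_CV (c : S.{u}) {R : ℝ} (hR : 0 < R) : (interior (CV c R)).Nonempty := by
  have hg2 := gr_lt
  have hp : 0 < (2 - gr) * R := mul_pos (by linarith) hR
  refine ⟨c, ?_⟩
  rw [mem_interior_iff_mem_nhds, Metric.mem_nhds_iff]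
  refine ⟨(2 - gr) * R, hp, fun w hw j => ?_⟩
  have h : ‖w - c‖ < (2 - gr) * R := (dist_eq_norm w c).symm.trans_lt (Metric.mem_ball.1 hw)
  exact (le_abs_self _).trans ((abs_ev_le (w - c) _).trans h.le)

noncomputable instance instNontrivial : Nontrivial S.{u} := by
  obtain ⟨x, _, hx⟩ := exists_x.{u} 0
  refine ⟨⟨x, 0, fun h => ?_⟩⟩
  rw [h] at hx
  have h0 : U (0 : S.{u}).1 0 = 0 := rfl
  rw [h0] at hx
  norm_num at hx

theorem inradius_le_of {E : Type u} [NormedAddCommGroup E] {C : Set E} {b : ℝ}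
    (h : ∀ (ρ : ℝ) (z : E), Metric.ball z ρ ⊆ C → ρ ≤ b) : inradius C ≤ ENNReal.ofReal b := by
  unfold inradius
  refine iSup_le fun ρ => iSup_le fun hρ => ?_
  obtain ⟨x, hx⟩ := hρ
  have h1 := h ρ x hx
  rw [← ENNReal.ofReal_coe_nnreal]
  exact ENNReal.ofReal_le_ofReal h1

theorem inradius_CU (c : S.{u}) {R : ℝ} (hR : 0 < R) : inradius (CU c R) ≤ ENNReal.ofReal ((2 - gr) * R) := by
  have hg2 := gr_lt
  have hp : 0 < (2 - gr) * R := mul_pos (by linarith) hR
  refine inradius_le_of fun ρ z hz => ?_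
  exact radius_le (fun m (w : S.{u}) => U w.1 m) c hp.le
    (fun m x y τ => by
      show U (x + τ • y - c).1 m = U (x - c).1 m + τ * U y.1 m
      have e1 : U (x + τ • y - c).1 m = U x.1 m + τ * U y.1 m - U c.1 m := rfl
      have e2 : U (x - c).1 m = U x.1 m - U c.1 m := rfl
      rw [e1, e2]; ring)
    (fun w => w.2.2.1) exists_x (CU c R) (fun w hw => hw) ρ z hz

theorem inradius_CV (c : S.{u}) {R : ℝ} (hR : 0 < R) : inradius (CV c R) ≤ ENNReal.ofReal ((2 - gr) * R) := by
  have hg2 := gr_lt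
  have hp : 0 < (2 - gr) * R := mul_pos (by linarith) hR
  refine inradius_le_of fun ρ z hz => ?_
  exact radius_le (fun m (w : S.{u}) => V w.1 m) c hp.le
    (fun m x y τ => by
      show V (x + τ • y - c).1 m = V (x - c).1 m + τ * V y.1 m
      have e1 : V (x + τ • y - c).1 m = V x.1 m + τ * V y.1 m - V c.1 m := rfl
      have e2 : V (x - c).1 m = V x.1 m - V c.1 m := rfl
      rw [e1, e2]; ring)
    (fun w => w.2.2.2) exists_y (CV c R) (fun w hw => hw) ρ z hz

theorem inradius_closedBall {E : Type u} [NormedAddCommGroup E] [NormedSpace ℝ E] [Nontrivial E] (c : E) {R : ℝ}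
    (hR : 0 < R) : inradius (Metric.closedBall c R) = ENNReal.ofReal R := by
  refine le_antisymm (inradius_le_of fun ρ z hz => ?_) ?_
  · by_contra hcon
    push Not at hcon
    obtain ⟨v, hv⟩ := exists_ne (0 : E)
    obtain ⟨e, he1, he2⟩ : ∃ e : E, ‖e‖ = 1 ∧ ∀ τ : ℝ, 0 ≤ τ → τ ≤ ‖z - c + τ • e‖ := by
      by_cases hzc : z - c = 0
      · refine ⟨‖v‖⁻¹ • v, ?_, fun τ hτ => ?_⟩
        · rw [norm_smul, norm_inv, norm_norm, inv_mul_cancel₀ (norm_ne_zero_iff.2 hv)]
        · rw [hzc, zero_add, norm_smul, norm_smul, norm_inv, norm_norm, inv_mul_cancel₀ (norm_ne_zero_iff.2 hv),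
            mul_one, Real.norm_eq_abs, abs_of_nonneg hτ]
      · have hn : 0 < ‖z - c‖ := norm_pos_iff.2 hzc
        refine ⟨‖z - c‖⁻¹ • (z - c), ?_, fun τ hτ => ?_⟩
        · rw [norm_smul, norm_inv, norm_norm, inv_mul_cancel₀ hn.ne']
        · have h1 : z - c + τ • ‖z - c‖⁻¹ • (z - c) = (1 + τ * ‖z - c‖⁻¹) • (z - c) := by
            rw [add_smul, one_smul, smul_smul]
          rw [h1, norm_smul, Real.norm_eq_abs, abs_of_nonneg (by positivity), add_mul, one_mul, mul_assoc,
            inv_mul_cancel₀ hn.ne', mul_one]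
          linarith
    set τ : ℝ := (ρ + R) / 2 with hτ
    have hτ1 : R < τ := by rw [hτ]; linarith
    have hτ2 : τ < ρ := by rw [hτ]; linarith
    have hmem : z + τ • e ∈ Metric.ball z ρ := by
      rw [mem_ball_iff_norm, add_sub_cancel_left, norm_smul, Real.norm_eq_abs, abs_of_pos (by linarith), he1]
      linarith
    have h2 := mem_closedBall_iff_norm.1 (hz hmem)
    have h3 := he2 τ (by linarith)
    have h4 : z + τ • e - c = z - c + τ • e := by abel
    rw [h4] at h2
    linarith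
  · unfold inradius
    refine le_iSup_of_le R.toNNReal (le_iSup_of_le ⟨c, ?_⟩ le_rfl)
    rw [Real.coe_toNNReal R hR.le]
    exact Metric.ball_subset_closedBall

theorem two_gr : (2 - gr) * 2 = 3 - √5 := by
  show (2 - Real.goldenRatio) * 2 = 3 - √5
  unfold Real.goldenRatio
  ring

/-- The example, for every universe. -/
theorem kadets : ∃ (E : Type u) (_ : NormedAddCommGroup E) (_ : NormedSpace ℝ E), CompleteSpace E ∧ Nontrivial E ∧
    ∀ (c : E) (R : ℝ), 0 < R → ∃ C₁ C₂ : Set E, IsConvexBody C₁ ∧ IsConvexBody C₂ ∧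
      Metric.closedBall c R ⊆ C₁ ∪ C₂ ∧ inradius (Metric.closedBall c R) = ENNReal.ofReal R ∧
      inradius C₁ + inradius C₂ ≤ ENNReal.ofReal ((3 - √5) * R) := by
  refine ⟨S.{u}, inferInstance, inferInstance, instComplete, instNontrivial, fun c R hR => ?_⟩
  refine ⟨CU c R, CV c R, ⟨convex_CU c R, isClosed_CU c R, interior_CU c hR⟩,
    ⟨convex_CV c R, isClosed_CV c R, interior_CV c hR⟩, ?_, inradius_closedBall c hR, ?_⟩
  · intro w hw
    exact cover c w hR (mem_closedBall_iff_norm.1 hw)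
  · refine (add_le_add (inradius_CU c hR) (inradius_CV c hR)).trans ?_
    have hg2 := gr_lt
    have hp : 0 ≤ (2 - gr) * R := (mul_pos (by linarith) hR).le
    rw [← ENNReal.ofReal_add hp hp]
    refine ENNReal.ofReal_le_ofReal ?_
    have := two_gr
    nlinarith [this]

end H25K
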