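import Pool.Agent.Lib.BE.Final

/-!
# Independent random signs on an arbitrary probability space (MP_e52bd2_pr)

Transfer of the counting form of the sharp Berry-Esseen bound to random variables.
-/

set_option autoImplicit false
set_option linter.unusedSectionVars false

open MeasureTheory ProbabilityTheory Set

namespace H25K

section Transfer

variable {Ω ι : Type*} [MeasurableSpace Ω] {P : Measure Ω} [IsProbabilityMeasure P] [Fintype ι] [DecidableEq ι]
  {X : ι → Ω → ℝ}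

/-- The value attached to a sign. -/
noncomputable def sv (b : Bool) : ℝ := if b then 1 else -1

/-- The event that the signs are prescribed by `δ`. -/
def atom (X : ι → Ω → ℝ) (δ : ι → Bool) : Set Ω := ⋂ i ∈ (Finset.univ : Finset ι), X i ⁻¹' {sv (δ i)}

theorem mem_atom (δ : ι → Bool) (ω : Ω) : ω ∈ atom X δ ↔ ∀ i, X i ω = sv (δ i) := by
  simp [atom]

theorem measurable_atom (hm : ∀ i, Measurable (X i)) (δ : ι → Bool) : MeasurableSet (atom X δ) := by
  unfold atom
  exact Finset.measurableSet_biInter _ fun i _ => hm i (measurableSet_singleton _)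

theorem measure_atom (hind : iIndepFun X P) (h1 : ∀ i, P {ω | X i ω = 1} = 1 / 2)
    (h2 : ∀ i, P {ω | X i ω = -1} = 1 / 2) (δ : ι → Bool) :
    P.real (atom X δ) = (1 / 2) ^ Fintype.card ι := by
  have h3 := hind.measure_inter_preimage_eq_mul (Finset.univ : Finset ι) (sets := fun i => {sv (δ i)})
    (fun i _ => measurableSet_singleton _)
  have h4 : ∀ i, P (X i ⁻¹' {sv (δ i)}) = 1 / 2 := by
    intro i
    cases h : δ i
    · simpa [sv, preimage] using h2 i
    · simpa [sv, preimage] using h1 i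
  unfold atom
  rw [measureReal_def, h3]
  simp [h4]

theorem pairwise_atom (s : Set (ι → Bool)) : s.PairwiseDisjoint (atom X) := by
  intro δ _ δ' _ hne
  rw [Function.onFun, Set.disjoint_left]
  intro ω h h'
  rw [mem_atom] at h h'
  apply hne
  funext i
  have h3 := (h i).symm.trans (h' i)
  unfold sv at h3
  cases h4 : δ i <;> cases h5 : δ' i <;> simp [h4, h5] at h3 ⊢ <;> norm_num at h3

open Classical in
/-- Lower bound of the probability of a set containing the atoms of the sign patterns in `p`. -/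
theorem le_measure (hm : ∀ i, Measurable (X i)) (hind : iIndepFun X P) (h1 : ∀ i, P {ω | X i ω = 1} = 1 / 2)
    (h2 : ∀ i, P {ω | X i ω = -1} = 1 / 2) (p : (ι → Bool) → Prop) (E : Set Ω)
    (hE : ∀ δ, p δ → atom X δ ⊆ E) : BE.Pr p ≤ P.real E := by
  have h3 : P.real (⋃ δ ∈ Finset.univ.filter p, atom X δ) = ∑ δ ∈ Finset.univ.filter p, P.real (atom X δ) :=
    measureReal_biUnion_finset (pairwise_atom _) (fun δ _ => measurable_atom hm δ)
  have h4 : BE.Pr p = ∑ δ ∈ Finset.univ.filter p, P.real (atom X δ) := by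
    rw [BE.Pr_eq_card p]
    simp only [measure_atom hind h1 h2, Finset.sum_const, nsmul_eq_mul]
    rw [one_div, inv_pow, div_eq_mul_inv]
  rw [h4, ← h3]
  refine measureReal_mono ?_
  refine iUnion₂_subset fun δ hδ => hE δ (Finset.mem_filter.1 hδ).2

/-- The probability of an event which is decided by the signs. -/
theorem measure_eq (hm : ∀ i, Measurable (X i)) (hind : iIndepFun X P) (h1 : ∀ i, P {ω | X i ω = 1} = 1 / 2)
    (h2 : ∀ i, P {ω | X i ω = -1} = 1 / 2) (p : (ι → Bool) → Prop) (E : Set Ω) (hEm : MeasurableSet E)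
    (hE : ∀ δ, ∀ ω ∈ atom X δ, (ω ∈ E ↔ p δ)) : P.real E = BE.Pr p := by
  refine le_antisymm ?_ (le_measure hm hind h1 h2 p E fun δ hδ ω hω => (hE δ ω hω).2 hδ)
  have h3 := le_measure hm hind h1 h2 (fun δ => ¬ p δ) Eᶜ fun δ hδ ω hω h => hδ ((hE δ ω hω).1 h)
  rw [BE.Pr_compl, measureReal_compl hEm, probReal_univ] at h3
  linarith

theorem sum_atom (a : ι → ℝ) (δ : ι → Bool) (ω : Ω) (hω : ω ∈ atom X δ) :
    ∑ i, a i * X i ω = BE.Sm a Finset.univ δ := by
  rw [BE.Sm_eq]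
  refine Finset.sum_congr rfl fun i _ => ?_
  rw [(mem_atom δ ω).1 hω i, mul_comm]
  rfl

end Transfer

/-- Both one-sided bounds, counting form. -/
theorem count_bound {ι : Type*} [Fintype ι] [DecidableEq ι] (a : ι → ℝ) (i₀ : ι) (ha : ∀ i, 0 ≤ a i ∧ a i ≤ a i₀)
    (hs : ∑ i, a i ^ 2 = 1) (x : ℝ) :
    0 < a i₀ ∧ BE.Pr (fun δ => BE.Sm a Finset.univ δ ≤ x) ≤ 1 / 2 + BE.D x + BE.D (a i₀) ∧
      1 / 2 + BE.D x - BE.D (a i₀) ≤ BE.Pr (fun δ => BE.Sm a Finset.univ δ < x) := by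
  have hpos : 0 < a i₀ := by
    rcases (ha i₀).1.lt_or_eq with h | h
    · exact h
    · exfalso
      have : ∑ i, a i ^ 2 = 0 := Finset.sum_eq_zero fun i _ => by
        have h1 : a i = 0 := le_antisymm ((ha i).2.trans h.symm.le) (ha i).1
        rw [h1]; ring
      rw [this] at hs
      norm_num at hs
  have hU : ∀ y : ℝ, BE.Pr (fun δ => BE.Sm a Finset.univ δ ≤ y) ≤ 1 / 2 + BE.D y + BE.D (a i₀) := fun y =>
    BE.U_all a Finset.univ (fun i _ => ha i) (Finset.mem_univ i₀) rfl hs hpos y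
  refine ⟨hpos, hU x, ?_⟩
  have h2 := hU (-x)
  rw [BE.D_neg] at h2
  have h3 := BE.Pr_symm a Finset.univ x
  have h4 : BE.Pr (fun δ => ¬ (BE.Sm a Finset.univ δ < x)) = 1 - BE.Pr (fun δ => BE.Sm a Finset.univ δ < x) :=
    BE.Pr_compl _
  have h5 : BE.Pr (fun δ => ¬ (BE.Sm a Finset.univ δ < x)) = BE.Pr (fun δ => x ≤ BE.Sm a Finset.univ δ) :=
    BE.Pr_congr fun δ => not_lt
  linarith

/-- The sharp bound for random signs on a probability space. -/
theorem berry_esseen {Ω ι : Type*} [MeasurableSpace Ω] (P : Measure Ω) [IsProbabilityMeasure P] [Fintype ι]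
    (X : ι → Ω → ℝ) (hm : ∀ i, Measurable (X i)) (hind : iIndepFun X P) (h1 : ∀ i, P {ω | X i ω = 1} = 1 / 2)
    (h2 : ∀ i, P {ω | X i ω = -1} = 1 / 2) (a : ι → ℝ) (i₀ : ι) (ha : ∀ i, 0 ≤ a i ∧ a i ≤ a i₀)
    (hs : ∑ i, a i ^ 2 = 1) (x : ℝ) :
    |P.real {ω | ∑ i, a i * X i ω ≤ x} - (gaussianReal 0 1).real (Iic x)| ≤ (gaussianReal 0 1).real (Ioo 0 (a i₀)) ∧
    |P.real {ω | ∑ i, a i * X i ω < x} - (gaussianReal 0 1).real (Iic x)| ≤
      (gaussianReal 0 1).real (Ioo 0 (a i₀)) := by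
  classical
  obtain ⟨hpos, hU, hL⟩ := count_bound a i₀ ha hs x
  have hmeas : Measurable fun ω => ∑ i, a i * X i ω :=
    Finset.measurable_sum _ fun i _ => (hm i).const_mul (a i)
  have e1 : P.real {ω | ∑ i, a i * X i ω ≤ x} = BE.Pr (fun δ => BE.Sm a Finset.univ δ ≤ x) :=
    measure_eq hm hind h1 h2 _ _ (measurableSet_le hmeas measurable_const) fun δ ω hω => by
      rw [mem_ofPred_eq, sum_atom a δ ω hω]
  have e2 : P.real {ω | ∑ i, a i * X i ω < x} = BE.Pr (fun δ => BE.Sm a Finset.univ δ < x) :=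
    measure_eq hm hind h1 h2 _ _ (measurableSet_lt hmeas measurable_const) fun δ ω hω => by
      rw [mem_ofPred_eq, sum_atom a δ ω hω]
  have h6 : BE.Pr (fun δ => BE.Sm a Finset.univ δ < x) ≤ BE.Pr (fun δ => BE.Sm a Finset.univ δ ≤ x) :=
    BE.Pr_mono fun δ h => le_of_lt h
  have g1 : (gaussianReal 0 1).real (Iic x) = 1 / 2 + BE.D x := BE.gauss_Iic x
  have g2 : (gaussianReal 0 1).real (Ioo 0 (a i₀)) = BE.D (a i₀) := BE.gauss_Ioo hpos
  rw [e1, e2, g1, g2, abs_le, abs_le]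
  refine ⟨⟨?_, ?_⟩, ?_, ?_⟩ <;> linarith

end H25K
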